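import Pool.Agent.R112.EN.Stm
import Pool.Agent.R112.EN.AP
import Pool.Agent.R112.EN.A
import Pool.Agent.R112.EN.FAC
import Pool.Agent.R112.EN.B
import Pool.Agent.R112.EN.V
import Pool.Agent.R112.EN.C
import Pool.Agent.R112.EN.E13
import Pool.Agent.R112.EN.E2
import Pool.Agent.R112.EN.E4
import Pool.Agent.R112.EN.E5
import Pool.Agent.R112.EN.Stp

/-!
# MP_d1da17_co, Q1: Eliahou number under adjoining large left generators (answer: yes)

If `S = ⟨m, γ₁, …, γ_{ℓ-1}⟩_c`, `S' = ⟨m, γ₁, …, γ_{ℓ'-1}⟩_c` with `ℓ ≥ 2`, `ℓ' > ℓ`,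
all listed generators primitive, `γ_ℓ ≥ c + m - 2 γ₁` and `E(S) ≥ 0`, then `E(S') ≥ 0`.
-/

namespace Pool.Agent.Results.MP_d1da17_co.EliahouStep

open Finset

/-- `⟨m, γ 1, …, γ n⟩_c`: the numerical semigroup generated by `m, γ 1, …, γ n` together with
all integers `≥ c`. -/
def semi (m c : ℕ) (γ : ℕ → ℕ) (n : ℕ) : AddSubmonoid ℕ :=
  AddSubmonoid.closure {x | x = m ∨ (∃ i, 1 ≤ i ∧ i ≤ n ∧ γ i = x) ∨ c ≤ x}

/-- `x` is a sum of two nonzero elements of `S`. -/
def IsSumOfTwo (S : AddSubmonoid ℕ) (x : ℕ) : Prop :=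
  ∃ a ∈ S, ∃ b ∈ S, a ≠ 0 ∧ b ≠ 0 ∧ a + b = x

open Classical in
/-- `k = |S ∩ [0,c)|`. -/
noncomputable def numLeft (c : ℕ) (S : AddSubmonoid ℕ) : ℕ :=
  ((Finset.range c).filter (fun x => x ∈ S)).card

open Classical in
/-- `r`: the number of `x ∈ [c,c+m)` that are not a sum of two nonzero elements of `S`. -/
noncomputable def numRight (m c : ℕ) (S : AddSubmonoid ℕ) : ℕ :=
  ((Finset.Ico c (c + m)).filter (fun x => ¬ IsSumOfTwo S x)).card

/-- the Eliahou number `E(S) = k ℓ + q r - c`. -/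
noncomputable def eliahou (m c q : ℕ) (S : AddSubmonoid ℕ) (l : ℕ) : ℤ :=
  (numLeft c S : ℤ) * l + (q : ℤ) * numRight m c S - c

open Pool.Agent.R112.EN in
theorem STEP : S_STEP :=
  have h1 : S_AP := ap
  have h2 : S_IND := ind
  have h3 : S_FAC := fac h1 h2
  have h4 : S_CLS := cls h3 h2
  have h5 : S_V1 := v1
  have hB : S_B := sB h1 h2 h4 h5
  have hC : S_C := sC h1 h3 h4 h5 v2 pair
  have e0' : S_E0 := e0
  have hE : S_E5 := e5 e0' e1 (e2 e0') e3 (e4 e1)
  stp hB hC h5 hE

section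
open Pool.Agent.R112.EN

/-- the listed generators besides `m` -/
def gens (γ : ℕ → ℕ) (n : ℕ) : Finset ℕ := (Icc 1 n).image γ

lemma semi_eq (m c : ℕ) (γ : ℕ → ℕ) (n : ℕ) : semi m c γ n = Sg m c (gens γ n) := by
  unfold semi Sg gens
  congr 1
  ext x
  simp only [Set.mem_ofPred_eq, coe_image, coe_Icc, Set.mem_insert_iff, Set.mem_union, Set.mem_image,
    Set.mem_Icc]
  constructor
  · rintro (h | ⟨i, h1, h2, h3⟩ | h)
    · exact Or.inl h
    · exact Or.inr (Or.inl ⟨i, ⟨h1, h2⟩, h3⟩)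
    · exact Or.inr (Or.inr h)
  · rintro (h | ⟨i, ⟨h1, h2⟩, h3⟩ | h)
    · exact Or.inl h
    · exact Or.inr (Or.inl ⟨i, h1, h2, h3⟩)
    · exact Or.inr (Or.inr h)

lemma gens_succ (γ : ℕ → ℕ) (n : ℕ) : gens γ (n + 1) = insert (γ (n + 1)) (gens γ n) := by
  unfold gens
  rw [← Finset.insert_Icc_right_eq_Icc_add_one (by omega), Finset.image_insert]

lemma mono_lt (γ : ℕ → ℕ) (N : ℕ) (h : ∀ i, 1 ≤ i → i + 1 ≤ N → γ i < γ (i + 1)) :
    ∀ j, ∀ i, 1 ≤ i → i < j → j ≤ N → γ i < γ j := by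
  intro j
  induction j with
  | zero => intro i _ h2; omega
  | succ j ih =>
    intro i h1 h2 h3
    rcases Nat.lt_or_ge i j with h4 | h4
    · exact lt_trans (ih i h1 h4 (by omega)) (h j (by omega) h3)
    · have : i = j := by omega
      subst this; exact h i h1 h3

lemma Sg_mono (m c : ℕ) {G H : Finset ℕ} (h : G ⊆ H) : Sg m c G ≤ Sg m c H := by
  apply AddSubmonoid.closure_mono
  intro x hx
  rcases hx with hx | hx | hx
  · exact Or.inl hx
  · exact Or.inr (Or.inl (h hx))
  · exact Or.inr (Or.inr hx)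

lemma Dec_mono {S T : AddSubmonoid ℕ} (h : S ≤ T) {x : ℕ} (hx : Dec S x) : Dec T x := by
  obtain ⟨a, ha, b, hb, h1, h2, h3⟩ := hx
  exact ⟨a, h ha, b, h hb, h1, h2, h3⟩

end

open Pool.Agent.R112.EN in
/-- **Q1 of MP_d1da17_co holds.** -/
theorem result (m c l l' q ρ : ℕ) (γ : ℕ → ℕ)
    (hm : 0 < m) (h1 : m < γ 1) (hmono : ∀ i, 1 ≤ i → i + 1 ≤ l' - 1 → γ i < γ (i + 1))
    (hc : γ (l' - 1) < c) (hl : 2 ≤ l) (hll : l < l')
    -- `c = q m - ρ` with `0 ≤ ρ < m`
    (hq : c + ρ = q * m) (hρ : ρ < m)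
    -- all listed generators are primitive in `S'` (hence those of `S` are primitive in `S`)
    (hprimm : ¬ IsSumOfTwo (semi m c γ (l' - 1)) m)
    (hprim : ∀ i, 1 ≤ i → i ≤ l' - 1 → ¬ IsSumOfTwo (semi m c γ (l' - 1)) (γ i))
    -- `γ_ℓ ≥ c + m - 2 γ₁`
    (hbig : c + m ≤ γ l + 2 * γ 1)
    -- `E(S) ≥ 0`
    (hE : 0 ≤ eliahou m c q (semi m c γ (l - 1)) l) :
    0 ≤ eliahou m c q (semi m c γ (l' - 1)) l' := by
  obtain ⟨N, hN⟩ : ∃ N, l' - 1 = N := ⟨_, rfl⟩
  have hl' : l' = N + 1 := by omega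
  rw [hN] at hmono hc hprimm hprim ⊢
  have hqq : qq m c = q := by
    unfold qq
    have h2 : c + m - 1 = q * m + (m - 1 - ρ) := by omega
    rw [h2, mul_comm, Nat.mul_add_div hm, Nat.div_eq_of_lt (by omega), add_zero]
  have hlt := mono_lt γ N hmono
  have hle : ∀ i j, 1 ≤ i → i ≤ j → j ≤ N → γ i ≤ γ j := by
    intro i j hi hij hj
    rcases Nat.lt_or_ge i j with h | h
    · exact (hlt j i hi h hj).le
    · have : i = j := by omega
      rw [this]
  have hmc : m < c := lt_of_lt_of_le h1 (le_trans (hle 1 N le_rfl (by omega) le_rfl) hc.le)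
  -- goodness
  have hsub : ∀ n, n ≤ N → gens γ n ⊆ gens γ N := by
    intro n hn
    unfold gens
    apply Finset.image_subset_image
    exact Finset.Icc_subset_Icc_right hn
  have hgood : ∀ n, n ≤ N → Good m c (gens γ n) := by
    intro n hn
    refine ⟨hm, hmc, ?_, ?_, ?_, ?_⟩
    · intro g hg
      unfold gens at hg
      rw [mem_image] at hg
      obtain ⟨i, hi, rfl⟩ := hg
      rw [mem_Icc] at hi
      exact lt_of_lt_of_le h1 (hle 1 i le_rfl hi.1 (by omega))
    · intro g hg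
      unfold gens at hg
      rw [mem_image] at hg
      obtain ⟨i, hi, rfl⟩ := hg
      rw [mem_Icc] at hi
      exact lt_of_le_of_lt (hle i N hi.1 (by omega) le_rfl) hc
    · intro h
      apply hprimm
      rw [semi_eq]
      exact Dec_mono (Sg_mono m c (hsub n hn)) h
    · intro g hg h
      unfold gens at hg
      rw [mem_image] at hg
      obtain ⟨i, hi, rfl⟩ := hg
      rw [mem_Icc] at hi
      apply hprim i hi.1 (by omega)
      rw [semi_eq]
      exact Dec_mono (Sg_mono m c (hsub n hn)) h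
  have hcard : ∀ n, n ≤ N → (gens γ n).card = n := by
    intro n hn
    unfold gens
    rw [Finset.card_image_of_injOn, Nat.card_Icc]
    · omega
    · intro i hi j hj hij
      rw [coe_Icc, Set.mem_Icc] at hi hj
      by_contra hne
      rcases Nat.lt_or_gt_of_ne hne with h | h
      · have := hlt j i hi.1 h (by omega)
        omega
      · have := hlt i j hj.1 h (by omega)
        omega
  have hEl : ∀ n, n ≤ N → eliahou m c q (semi m c γ n) (n + 1) = EE m c (gens γ n) := by
    intro n hn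
    have := sA ap ind m c (gens γ n) (hgood n hn)
    rw [hcard n hn] at this
    rw [← this, semi_eq, ← hqq]
    rfl
  -- induction
  have hind : ∀ n, l - 1 ≤ n → n ≤ N → 0 ≤ EE m c (gens γ n) := by
    intro n
    induction n with
    | zero => intro h; omega
    | succ n ih =>
      intro h2 h3
      rcases Nat.lt_or_ge n (l - 1) with h4 | h4
      · have h5 : n + 1 = l - 1 := by omega
        rw [h5, ← hEl (l - 1) (by omega)]
        have : l - 1 + 1 = l := by omega
        rw [this]; exact hE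
      · have h6 := ih h4 (by omega)
        rw [gens_succ]
        refine STEP m c (gens γ n) (γ (n + 1)) ⟨hgood n (by omega), ?_, ?_, ?_, ?_⟩ h6
        · rw [← gens_succ]; exact hgood (n + 1) h3
        · rw [← Finset.card_pos, hcard n (by omega)]; omega
        · intro g hg
          unfold gens at hg
          rw [mem_image] at hg
          obtain ⟨i, hi, rfl⟩ := hg
          rw [mem_Icc] at hi
          exact hlt (n + 1) i hi.1 (by omega) h3
        · intro g hg
          unfold gens at hg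
          rw [mem_image] at hg
          obtain ⟨i, hi, rfl⟩ := hg
          rw [mem_Icc] at hi
          have h7 := hle l (n + 1) (by omega) (by omega) h3
          have h8 := hle 1 i le_rfl hi.1 (by omega)
          omega
  have := hind N (by omega) le_rfl
  rw [← hEl N le_rfl] at this
  rw [hl']; exact this

end Pool.Agent.Results.MP_d1da17_co.EliahouStep
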